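import Pool.Agent.H21.BS.TB

/-!
# Inner product with dual functions on the subwindows
-/

set_option autoImplicit false

open Finset Pool.Agent.H6.N4D

namespace Pool.Agent.H67.BS

open Pool.Agent.H21.BS

/-- the average of the dual function against one exponential -/
noncomputable def AA (V : Cell) (v : ℕ → Cell) (s k d b : ℕ) : ℂ :=
  av (V.a + k * s ^ 2) (s ^ 2) fun n =>
    V.om n * starRingEnd ℂ (ee (((v k).α d + (b : ℝ) / d) * n) * (v k).g d n)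

theorem inner1 (V : Cell) (v : ℕ → Cell) (s k d b : ℕ) (hs : 1 ≤ s) :
    ‖∑ x ∈ range (s ^ 2), ee ((b : ℝ) / d * ((V.a + k * s ^ 2 + x : ℕ) : ℝ)) *
      ee ((v k).α d * ((V.a + k * s ^ 2 + x : ℕ) : ℝ)) * (v k).g d (V.a + k * s ^ 2 + x) *
      starRingEnd ℂ (V.om (V.a + k * s ^ 2 + x))‖ = (s : ℝ) ^ 2 * ‖AA V v s k d b‖ := by
  have hs0 : (0 : ℝ) < (s : ℝ) ^ 2 := by positivity
  unfold AA av
  rw [norm_div, Nat.cast_pow, norm_pow, Complex.norm_natCast, mul_div_cancel₀ _ hs0.ne',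
    ← Complex.norm_conj, map_sum]
  congr 1
  refine Finset.sum_congr rfl fun x _ => ?_
  have e : ((v k).α d + (b : ℝ) / d) * ((V.a + k * s ^ 2 + x : ℕ) : ℝ) =
      (b : ℝ) / d * ((V.a + k * s ^ 2 + x : ℕ) : ℝ) +
      (v k).α d * ((V.a + k * s ^ 2 + x : ℕ) : ℝ) := by ring
  beta_reduce
  rw [e, ee_add]
  simp only [map_mul, Complex.conj_conj]
  ring

theorem inner2 (hDQF : T_DQF) (V : Cell) (v : ℕ → Cell) (s k d : ℕ) (hs : 1 ≤ s) (hd : 1 ≤ d) :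
    ‖∑ x ∈ range (s ^ 2), (v k).u d (V.a + k * s ^ 2 + x) *
      starRingEnd ℂ (V.om (V.a + k * s ^ 2 + x))‖ ≤
      ∑ b ∈ Ico 1 d, (s : ℝ) ^ 2 * ‖AA V v s k d b‖ := by
  have e : ∑ x ∈ range (s ^ 2), (v k).u d (V.a + k * s ^ 2 + x) *
      starRingEnd ℂ (V.om (V.a + k * s ^ 2 + x)) =
      ∑ b ∈ Ico 1 d, ∑ x ∈ range (s ^ 2), ee ((b : ℝ) / d * ((V.a + k * s ^ 2 + x : ℕ) : ℝ)) *
      ee ((v k).α d * ((V.a + k * s ^ 2 + x : ℕ) : ℝ)) * (v k).g d (V.a + k * s ^ 2 + x) *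
      starRingEnd ℂ (V.om (V.a + k * s ^ 2 + x)) := by
    rw [Finset.sum_comm]
    refine Finset.sum_congr rfl fun x _ => ?_
    rw [Cell.u, hDQF d _ hd, Finset.sum_mul, Finset.sum_mul, Finset.sum_mul]
  rw [e]
  refine (norm_sum_le _ _).trans (le_of_eq ?_)
  refine Finset.sum_congr rfl fun b _ => ?_
  exact inner1 V v s k d b hs

theorem inner3 (hDQF : T_DQF) (V : Cell) (v : ℕ → Cell) (s k : ℕ) (Q : Finset ℕ) (hs : 1 ≤ s)
    (hQ : (v k).Q = Q) (hq : ∀ q ∈ Q, 1 ≤ q ∧ ‖(v k).c q‖ ≤ 3) :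
    ‖∑ x ∈ range (s ^ 2), (v k).om (V.a + k * s ^ 2 + x) *
      starRingEnd ℂ (V.om (V.a + k * s ^ 2 + x))‖ ≤
      ∑ d ∈ Q, 3 / (d : ℝ) * ∑ b ∈ Ico 1 d, (s : ℝ) ^ 2 * ‖AA V v s k d b‖ := by
  have e : ∑ x ∈ range (s ^ 2), (v k).om (V.a + k * s ^ 2 + x) *
      starRingEnd ℂ (V.om (V.a + k * s ^ 2 + x)) =
      ∑ d ∈ Q, (1 / (d : ℂ) * (v k).c d) * ∑ x ∈ range (s ^ 2), (v k).u d (V.a + k * s ^ 2 + x) *
      starRingEnd ℂ (V.om (V.a + k * s ^ 2 + x)) := by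
    simp only [Finset.mul_sum]
    rw [Finset.sum_comm]
    refine Finset.sum_congr rfl fun x _ => ?_
    rw [Cell.om, hQ, Finset.sum_mul]
    refine Finset.sum_congr rfl fun d _ => ?_
    ring
  rw [e]
  refine (norm_sum_le _ _).trans (Finset.sum_le_sum fun d hd => ?_)
  obtain ⟨hd1, hc⟩ := hq d hd
  have hd0 : (0 : ℝ) < d := by exact_mod_cast hd1
  rw [norm_mul, norm_mul, norm_div, norm_one, Complex.norm_natCast]
  refine mul_le_mul ?_ (inner2 hDQF V v s k d hs hd1) (norm_nonneg _) (by positivity)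
  calc 1 / (d : ℝ) * ‖(v k).c d‖ ≤ 1 / (d : ℝ) * 3 :=
        mul_le_mul_of_nonneg_left hc (by positivity)
    _ = 3 / (d : ℝ) := by ring

theorem pf_CRS (hSUB : T_SUB) (hDQF : T_DQF) : T_CRS := by
  intro W
  obtain ⟨C, hC, hS⟩ := hSUB W
  refine ⟨3 * Real.sqrt C, by positivity, ?_⟩
  intro P κ V s T Q v hV hs hsP hκ hN hv
  have hs1 : (1 : ℝ) ≤ s := by exact_mod_cast hs
  have hs0 : (0 : ℝ) < s := by linarith
  rcases Nat.eq_zero_or_pos T with rfl | hT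
  · rw [Finset.range_zero, Finset.sum_empty, norm_zero]
    positivity
  have hT0 : (0 : ℝ) ≤ T := Nat.cast_nonneg _
  obtain ⟨-, -, -, h0⟩ := hv 0 hT
  -- the number of primes
  have hcard : (Q.card : ℝ) ≤ (s : ℝ) ^ (1 / 100 : ℝ) := by
    have h1 : ∀ q ∈ Q, q ^ 100 ≤ s := by
      intro q hq
      have h2 := (h0 q hq).2.1
      have h3 : (q ^ 100) ^ 2 ≤ s ^ 2 := by
        rw [← pow_mul]
        exact h2
      exact (Nat.pow_le_pow_iff_left two_ne_zero).1 h3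
    have h2 : Q ⊆ Icc 1 ⌊(s : ℝ) ^ (1 / 100 : ℝ)⌋₊ := by
      intro q hq
      rw [Finset.mem_Icc]
      refine ⟨(h0 q hq).1.one_lt.le, Nat.le_floor ?_⟩
      have h3 : ((q : ℝ)) ^ 100 ≤ s := by exact_mod_cast h1 q hq
      have h4 : ((q : ℝ) ^ 100) ^ (1 / 100 : ℝ) ≤ (s : ℝ) ^ (1 / 100 : ℝ) :=
        Real.rpow_le_rpow (by positivity) h3 (by norm_num)
      rw [← Real.rpow_natCast, ← Real.rpow_mul (Nat.cast_nonneg _)] at h4
      have h5 : ((100 : ℕ) : ℝ) * (1 / 100 : ℝ) = 1 := by norm_num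
      rwa [h5, Real.rpow_one] at h4
    have h3 := Finset.card_le_card h2
    rw [Nat.card_Icc, Nat.add_sub_cancel] at h3
    exact (Nat.cast_le.2 h3).trans (Nat.floor_le (by positivity))
  -- the sum over the windows for given `d`, `b`
  have hkey : ∀ d ∈ Q, ∀ b : ℕ, ∑ k ∈ range T, ‖AA V v s k d b‖ ≤
      Real.sqrt C * T * (s : ℝ) ^ (-(1 / 4) : ℝ) := by
    intro d hd b
    have h1 := hS P κ V s T (fun k => (v k).α d + (b : ℝ) / d) (fun k => (v k).g d) hV hs hsP hκ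
      hN (fun k hk => by
        obtain ⟨e1, e2, e3, e4⟩ := hv k hk
        have := (e4 d hd).2.2.1
        rwa [e1, e2] at this)
    have h2 : ∑ k ∈ range T, ‖AA V v s k d b‖ ^ 2 ≤ C * T / Real.sqrt s := h1
    have h3 : (∑ k ∈ range T, ‖AA V v s k d b‖) ^ 2 ≤ T * (C * T / Real.sqrt s) := by
      refine sq_sum_le_card_mul_sum_sq.trans ?_
      rw [Finset.card_range]
      exact mul_le_mul_of_nonneg_left h2 hT0
    have h4 : T * (C * T / Real.sqrt s) =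
        (Real.sqrt C * T * (s : ℝ) ^ (-(1 / 4) : ℝ)) ^ 2 := by
      have e1 : ((s : ℝ) ^ (-(1 / 4) : ℝ)) ^ 2 = (Real.sqrt s)⁻¹ := by
        rw [← Real.rpow_natCast, ← Real.rpow_mul hs0.le, Real.sqrt_eq_rpow,
          ← Real.rpow_neg hs0.le]
        norm_num
      rw [mul_pow, mul_pow, e1, Real.sq_sqrt hC]
      ring
    rw [h4] at h3
    exact (pow_le_pow_iff_left₀ (Finset.sum_nonneg fun k _ => norm_nonneg _) (by positivity)
      two_ne_zero).1 h3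
  have hmain : ‖∑ k ∈ range T, ∑ x ∈ range (s ^ 2), (v k).om (V.a + k * s ^ 2 + x) *
      starRingEnd ℂ (V.om (V.a + k * s ^ 2 + x))‖ ≤
      ∑ d ∈ Q, 3 * ((s : ℝ) ^ 2 * (Real.sqrt C * T * (s : ℝ) ^ (-(1 / 4) : ℝ))) := by
    calc ‖∑ k ∈ range T, ∑ x ∈ range (s ^ 2), (v k).om (V.a + k * s ^ 2 + x) *
          starRingEnd ℂ (V.om (V.a + k * s ^ 2 + x))‖ ≤
          ∑ k ∈ range T, ∑ d ∈ Q, 3 / (d : ℝ) * ∑ b ∈ Ico 1 d,
            (s : ℝ) ^ 2 * ‖AA V v s k d b‖ := by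
          refine (norm_sum_le _ _).trans (Finset.sum_le_sum fun k hk => ?_)
          obtain ⟨e1, e2, e3, e4⟩ := hv k (Finset.mem_range.1 hk)
          exact inner3 hDQF V v s k Q hs e3 fun q hq => ⟨(e4 q hq).1.one_lt.le, (e4 q hq).2.2.2⟩
      _ = ∑ d ∈ Q, 3 / (d : ℝ) * ∑ b ∈ Ico 1 d, (s : ℝ) ^ 2 *
            ∑ k ∈ range T, ‖AA V v s k d b‖ := by
          rw [Finset.sum_comm]
          refine Finset.sum_congr rfl fun d _ => ?_
          rw [← Finset.mul_sum, Finset.sum_comm]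
          congr 1
          refine Finset.sum_congr rfl fun b _ => ?_
          rw [Finset.mul_sum]
      _ ≤ _ := by
          refine Finset.sum_le_sum fun d hd => ?_
          have hd1 : 1 ≤ d := (h0 d hd).1.one_lt.le
          have hd0 : (0 : ℝ) < d := by exact_mod_cast hd1
          have hB : ∑ b ∈ Ico 1 d, (s : ℝ) ^ 2 * ∑ k ∈ range T, ‖AA V v s k d b‖ ≤
              d * ((s : ℝ) ^ 2 * (Real.sqrt C * T * (s : ℝ) ^ (-(1 / 4) : ℝ))) := by
            calc ∑ b ∈ Ico 1 d, (s : ℝ) ^ 2 * ∑ k ∈ range T, ‖AA V v s k d b‖ ≤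
                ∑ _b ∈ Ico 1 d, (s : ℝ) ^ 2 *
                  (Real.sqrt C * T * (s : ℝ) ^ (-(1 / 4) : ℝ)) :=
                  Finset.sum_le_sum fun b _ =>
                    mul_le_mul_of_nonneg_left (hkey d hd b) (by positivity)
              _ = ((d - 1 : ℕ) : ℝ) * ((s : ℝ) ^ 2 *
                  (Real.sqrt C * T * (s : ℝ) ^ (-(1 / 4) : ℝ))) := by
                  rw [Finset.sum_const, Nat.card_Ico, nsmul_eq_mul]
              _ ≤ _ := by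
                  refine mul_le_mul_of_nonneg_right ?_ (by positivity)
                  exact_mod_cast Nat.sub_le d 1
          calc 3 / (d : ℝ) * ∑ b ∈ Ico 1 d, (s : ℝ) ^ 2 * ∑ k ∈ range T, ‖AA V v s k d b‖ ≤
              3 / (d : ℝ) * (d * ((s : ℝ) ^ 2 *
                (Real.sqrt C * T * (s : ℝ) ^ (-(1 / 4) : ℝ)))) :=
                mul_le_mul_of_nonneg_left hB (by positivity)
            _ = _ := by field_simp
  refine hmain.trans ?_
  rw [Finset.sum_const, nsmul_eq_mul, hN]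
  have hexp : (s : ℝ) ^ (1 / 100 : ℝ) * (s : ℝ) ^ (-(1 / 4) : ℝ) ≤ (s : ℝ) ^ (-(1 / 5) : ℝ) := by
    rw [← Real.rpow_add hs0]
    exact Real.rpow_le_rpow_of_exponent_le hs1 (by norm_num)
  push_cast
  calc (Q.card : ℝ) * (3 * ((s : ℝ) ^ 2 * (Real.sqrt C * T * (s : ℝ) ^ (-(1 / 4) : ℝ)))) ≤
      (s : ℝ) ^ (1 / 100 : ℝ) *
        (3 * ((s : ℝ) ^ 2 * (Real.sqrt C * T * (s : ℝ) ^ (-(1 / 4) : ℝ)))) :=
        mul_le_mul_of_nonneg_right hcard (by positivity)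
    _ = 3 * Real.sqrt C * (T * (s : ℝ) ^ 2) *
        ((s : ℝ) ^ (1 / 100 : ℝ) * (s : ℝ) ^ (-(1 / 4) : ℝ)) := by ring
    _ ≤ 3 * Real.sqrt C * (T * (s : ℝ) ^ 2) * (s : ℝ) ^ (-(1 / 5) : ℝ) :=
        mul_le_mul_of_nonneg_left hexp (by positivity)

end Pool.Agent.H67.BS
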